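import Mathlib
import Pool.Agent.Q103.SD.NFRad

/-!
# Divisibility of values at a large element comes from divisibility of polynomials
-/

set_option autoImplicit false

namespace Pool.Agent.Q103.FER

open Polynomial NumberField Pool.Agent.Q103.SD Pool.Agent.Q103.SD.NF

/-- pseudo division with a bound for the size of the remainder -/
theorem pseudo {A : Type*} [CommRing A] {s : A → ℝ} (hs : SizeFn s) (hneg : ∀ x, s (-x) = s x)
    {P : A[X]} {H : ℝ} (hH : 1 ≤ H) (hP : ∀ j, s (P.coeff j) ≤ H) (m : ℕ) :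
    ∀ (f : A[X]) (R : ℝ), (∀ j, s (f.coeff j) ≤ R) → f.degree < ((P.natDegree + m : ℕ) : WithBot ℕ) →
    ∃ q r : A[X], C (P.leadingCoeff ^ m) * f = q * P + r ∧
      r.degree < ((P.natDegree : ℕ) : WithBot ℕ) ∧ ∀ j, s (r.coeff j) ≤ (2 * H) ^ m * R := by
  induction m with
  | zero =>
    intro f R hf hdeg
    exact ⟨0, f, by simp, by simpa using hdeg, by simpa using hf⟩
  | succ m ih =>
    intro f R hf hdeg
    obtain ⟨c, hc⟩ : ∃ c, c = f.coeff (P.natDegree + m) := ⟨_, rfl⟩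
    obtain ⟨f', hf'⟩ : ∃ f', f' = C P.leadingCoeff * f - C c * (X ^ m * P) := ⟨_, rfl⟩
    have hR0 : 0 ≤ R := (hs.nonneg _).trans (hf 0)
    have h0 : ∀ j, P.natDegree + m + 1 ≤ j → f.coeff j = 0 := by
      intro j hj
      apply coeff_eq_zero_of_degree_lt
      refine lt_of_lt_of_le hdeg ?_
      exact_mod_cast hj
    have hcoeff : ∀ j, f'.coeff j = P.leadingCoeff * f.coeff j -
        c * (if m ≤ j then P.coeff (j - m) else 0) := by
      intro j
      rw [hf', coeff_sub, coeff_C_mul, coeff_C_mul, coeff_X_pow_mul']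
    have hdeg' : f'.degree < ((P.natDegree + m : ℕ) : WithBot ℕ) := by
      rw [degree_lt_iff_coeff_zero]
      intro j hj
      rw [hcoeff, if_pos (by omega)]
      rcases Nat.lt_or_ge (P.natDegree + m) j with h1 | h1
      · rw [h0 j (by omega), coeff_eq_zero_of_natDegree_lt (p := P) (by omega)]
        ring
      · have h2 : j = P.natDegree + m := by omega
        rw [h2, ← hc, Nat.add_sub_cancel, leadingCoeff]
        ring
    have hsz : ∀ j, s (f'.coeff j) ≤ 2 * H * R := by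
      intro j
      have hl : s P.leadingCoeff ≤ H := hP _
      have h1 : s (P.leadingCoeff * f.coeff j) ≤ H * R :=
        (hs.mul _ _).trans (mul_le_mul hl (hf j) (hs.nonneg _) (by linarith))
      have h2 : s (c * (if m ≤ j then P.coeff (j - m) else 0)) ≤ H * R := by
        refine (hs.mul _ _).trans ?_
        rw [mul_comm H R]
        refine mul_le_mul (by rw [hc]; exact hf _) ?_ (hs.nonneg _) hR0
        split_ifs
        · exact hP _
        · rw [hs.zero]; linarith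
      rw [hcoeff, sub_eq_add_neg]
      refine (hs.add _ _).trans ?_
      rw [hneg]
      linarith
    obtain ⟨q, r, h1, h2, h3⟩ := ih f' (2 * H * R) hsz hdeg'
    refine ⟨q + C (P.leadingCoeff ^ m) * (C c * X ^ m), r, ?_, h2, ?_⟩
    · have h4 : C (P.leadingCoeff ^ (m + 1)) * f =
          C (P.leadingCoeff ^ m) * f' + C (P.leadingCoeff ^ m) * (C c * X ^ m) * P := by
        rw [hf', pow_succ, map_mul]
        ring
      rw [h4, h1]
      ring
    · intro j
      refine (h3 j).trans (le_of_eq ?_)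
      rw [pow_succ]
      ring

/-- the value of a polynomial of small degree -/
theorem eval_low {r : ℂ[X]} {R : ℝ} (hR : ∀ j, ‖r.coeff j‖ ≤ R) {e : ℕ}
    (he : r.degree < (e : WithBot ℕ)) {z : ℂ} (hz : 2 ≤ ‖z‖) :
    ‖z‖ * ‖r.eval z‖ ≤ 2 * R * ‖z‖ ^ e := by
  have hR0 : 0 ≤ R := (norm_nonneg _).trans (hR 0)
  rcases Nat.eq_zero_or_pos e with rfl | he0
  · have h1 : r = 0 := by
      apply degree_eq_bot.mp
      have : r.degree < ((0 : ℕ) : WithBot ℕ) := he
      exact Nat.WithBot.lt_zero_iff.mp (by simpa using this)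
    rw [h1, eval_zero, norm_zero, mul_zero]
    positivity
  have hnd : r.natDegree < e := by
    rcases eq_or_ne r 0 with rfl | hr0
    · simpa using he0
    · exact (natDegree_lt_iff_degree_lt hr0).mpr he
  rw [eval_eq_sum_range' hnd]
  have h2 : ‖∑ i ∈ Finset.range e, r.coeff i * z ^ i‖ ≤ R * ∑ i ∈ Finset.range e, ‖z‖ ^ i := by
    refine (norm_sum_le _ _).trans ?_
    rw [Finset.mul_sum]
    apply Finset.sum_le_sum
    intro i _
    rw [norm_mul, norm_pow]
    exact mul_le_mul_of_nonneg_right (hR i) (by positivity)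
  have h3 : (∑ i ∈ Finset.range e, ‖z‖ ^ i) * (‖z‖ - 1) = ‖z‖ ^ e - 1 := geom_sum_mul _ _
  have h4 : 0 ≤ ∑ i ∈ Finset.range e, ‖z‖ ^ i := Finset.sum_nonneg fun i _ => by positivity
  have h5 : ‖z‖ * ∑ i ∈ Finset.range e, ‖z‖ ^ i ≤ 2 * ‖z‖ ^ e := by nlinarith
  calc ‖z‖ * ‖∑ i ∈ Finset.range e, r.coeff i * z ^ i‖
      ≤ ‖z‖ * (R * ∑ i ∈ Finset.range e, ‖z‖ ^ i) := mul_le_mul_of_nonneg_left h2 (norm_nonneg _)
    _ = R * (‖z‖ * ∑ i ∈ Finset.range e, ‖z‖ ^ i) := by ring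
    _ ≤ R * (2 * ‖z‖ ^ e) := mul_le_mul_of_nonneg_left h5 hR0
    _ = _ := by ring

section

variable {K : Type*} [Field K] [NumberField K]

theorem house_neg' (x : 𝓞 K) : house ((-x : 𝓞 K) : K) = house (x : K) := by
  have e : ((-x : 𝓞 K) : K) = -(x : K) := by push_cast; rfl
  rw [e]
  unfold house
  rw [map_neg, norm_neg]

/-- **Divisibility.** If `P(t)` divides `M f(t)`, then `P` divides `f` over the field. -/
theorem dvd_poly {T H B : ℝ} {t : 𝓞 K} (ht : ∀ σ : K →+* ℂ, T ≤ ‖σ t‖) (hH : 1 ≤ H) (hHB : H ≤ B)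
    {P f : (𝓞 K)[X]} (hP : ∀ (j : ℕ) (σ : K →+* ℂ), ‖σ (P.coeff j)‖ ≤ H)
    (hf : ∀ (j : ℕ) (σ : K →+* ℂ), ‖σ (f.coeff j)‖ ≤ H) {k : ℕ} (hfk : f.natDegree ≤ k)
    (hP0 : P ≠ 0) (hl : ∀ σ : K →+* ℂ, 1 ≤ B * ‖σ P.leadingCoeff‖) {M : ℕ} (hM : M ≠ 0)
    (hT1 : 4 * B ^ 2 ≤ T) (hT2 : 4 * B * M * ((2 * H) ^ (k + 1) * H) < T)
    (hdvd : P.eval t ∣ (M : 𝓞 K) * f.eval t) :
    P.map (algebraMap (𝓞 K) K) ∣ f.map (algebraMap (𝓞 K) K) := by
  have hB : 1 ≤ B := hH.trans hHB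
  obtain ⟨R, hR⟩ : ∃ R, R = (2 * H) ^ (k + 1) * H := ⟨_, rfl⟩
  have hR1 : 1 ≤ R := by
    rw [hR]
    exact one_le_mul_of_one_le_of_one_le (one_le_pow₀ (by linarith)) hH
  have hM1 : (1 : ℝ) ≤ M := by exact_mod_cast Nat.one_le_iff_ne_zero.mpr hM
  rw [← hR] at hT2
  have hT4 : 4 ≤ T := by nlinarith
  have ht0 : t ≠ 0 := by
    rintro rfl
    obtain ⟨σ⟩ : Nonempty (K →+* ℂ) := inferInstance
    have h1 := ht σ
    simp at h1
    linarith
  obtain ⟨q, r, h1, h2, h3⟩ := pseudo (A := 𝓞 K) sizeFn_house house_neg' hH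
    (fun j => house_le (by linarith) (hP j)) (k + 1) f H (fun j => house_le (by linarith) (hf j))
    (by
      refine lt_of_le_of_lt degree_le_natDegree ?_
      exact_mod_cast (by omega : f.natDegree < P.natDegree + (k + 1)))
  have hr : ∀ (j : ℕ) (σ : K →+* ℂ), ‖σ (r.coeff j)‖ ≤ R := fun j σ => by
    have := (norm_embedding_le_house ((r.coeff j : 𝓞 K) : K) σ).trans (h3 j)
    rw [hR]
    exact this
  -- the value of the remainder vanishes
  have hr0 : r.eval t = 0 := by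
    have hd2 : P.eval t ∣ (M : 𝓞 K) * r.eval t := by
      have e1 := congrArg (fun p => p.eval t) h1
      simp only [eval_mul, eval_add, eval_C] at e1
      have e2 : (M : 𝓞 K) * r.eval t = P.leadingCoeff ^ (k + 1) * ((M : 𝓞 K) * f.eval t) -
          (M : 𝓞 K) * q.eval t * P.eval t := by
        linear_combination (-(M : 𝓞 K)) * e1
      rw [e2]
      exact dvd_sub (Dvd.dvd.mul_left hdvd _) (Dvd.intro_left _ rfl)
    obtain ⟨y, hy⟩ := hd2
    by_contra hne
    have hy0 : y ≠ 0 := by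
      rintro rfl
      rw [mul_zero] at hy
      rcases mul_eq_zero.mp hy with h | h
      · exact hM (by exact_mod_cast h)
      · exact hne h
    obtain ⟨σ, hσ⟩ := exists_conjugate_one_le_norm hy0
    obtain ⟨g1, g2, g3⟩ := map_conditions (B := B) (fun j σ => (hP j σ).trans hHB) hl σ
    have g4 := (eval_size hB g1 g2 (z := σ t) (hT1.trans (ht σ))).1
    rw [g3, eval_map_sigma] at g4
    have g5 : ‖σ t‖ * ‖(r.map (σ.comp (algebraMap (𝓞 K) K))).eval (σ t)‖ ≤
        2 * R * ‖σ t‖ ^ P.natDegree := by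
      refine eval_low (fun j => ?_) ?_ (by linarith [ht σ])
      · rw [coeff_map]
        exact hr j σ
      · exact lt_of_le_of_lt degree_map_le h2
    rw [eval_map_sigma] at g5
    have g6 : (M : ℝ) * ‖σ (r.eval t : 𝓞 K)‖ = ‖σ (P.eval t : 𝓞 K)‖ * ‖σ (y : K)‖ := by
      have e3 := congrArg (fun a : 𝓞 K => ‖σ (a : K)‖) hy
      simp only [map_mul, norm_mul] at e3
      simpa using e3
    have g7 : ‖σ (P.eval t : 𝓞 K)‖ ≤ (M : ℝ) * ‖σ (r.eval t : 𝓞 K)‖ := by
      rw [g6]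
      have : 0 ≤ ‖σ (P.eval t : 𝓞 K)‖ := norm_nonneg _
      nlinarith
    have hσt : 0 < ‖σ t‖ := by linarith [ht σ]
    have hpow : 0 < ‖σ t‖ ^ P.natDegree := by positivity
    have g8 : ‖σ t‖ * ‖σ t‖ ^ P.natDegree ≤ (4 * B * M * R) * ‖σ t‖ ^ P.natDegree := by
      calc ‖σ t‖ * ‖σ t‖ ^ P.natDegree ≤ ‖σ t‖ * (2 * B * ‖σ (P.eval t : 𝓞 K)‖) :=
            mul_le_mul_of_nonneg_left g4 hσt.le
        _ ≤ ‖σ t‖ * (2 * B * ((M : ℝ) * ‖σ (r.eval t : 𝓞 K)‖)) := by
            apply mul_le_mul_of_nonneg_left _ hσt.le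
            exact mul_le_mul_of_nonneg_left g7 (by linarith)
        _ = 2 * B * M * (‖σ t‖ * ‖σ (r.eval t : 𝓞 K)‖) := by ring
        _ ≤ 2 * B * M * (2 * R * ‖σ t‖ ^ P.natDegree) :=
            mul_le_mul_of_nonneg_left g5 (by positivity)
        _ = _ := by ring
    have g9 := le_of_mul_le_mul_right g8 hpow
    linarith [ht σ]
  have hrz : r = 0 := by
    by_contra hne
    have hRT : R < T := by
      have : R ≤ 4 * B * M * R := by
        have h9 : 1 ≤ 4 * B * (M : ℝ) := one_le_mul_of_one_le_of_one_le (by linarith) hM1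
        nlinarith
      linarith
    have h5 := X_pow_dvd_of_eval (s := fun x : 𝓞 K => house (x : K)) ht0
      (fun x hx hx' => small_house ht x hx hx') (r.natDegree + 1)
      (fun i _ => lt_of_le_of_lt ((h3 i).trans (le_of_eq hR.symm)) hRT) hr0
    obtain ⟨Q, hQ⟩ := h5
    have hQ0 : Q ≠ 0 := by
      rintro rfl
      rw [mul_zero] at hQ
      exact hne hQ
    have h6 := congrArg natDegree hQ
    rw [natDegree_X_pow_mul _ hQ0] at h6
    omega
  rw [hrz, add_zero] at h1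
  have h7 := congrArg (Polynomial.map (algebraMap (𝓞 K) K)) h1
  rw [Polynomial.map_mul, Polynomial.map_mul, map_C] at h7
  have hu : IsUnit (C (algebraMap (𝓞 K) K (P.leadingCoeff ^ (k + 1)))) := by
    rw [isUnit_C, isUnit_iff_ne_zero, Ne, FaithfulSMul.algebraMap_eq_zero_iff]
    exact pow_ne_zero _ (leadingCoeff_ne_zero.mpr hP0)
  have h8 : P.map (algebraMap (𝓞 K) K) ∣
      C (algebraMap (𝓞 K) K (P.leadingCoeff ^ (k + 1))) * f.map (algebraMap (𝓞 K) K) := by
    rw [h7]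
    exact Dvd.intro_left _ rfl
  exact (hu.dvd_mul_left).mp h8

/-- the norm of an integer as a product over the embeddings -/
theorem nrm_eq_prod (y : 𝓞 K) : nrm y = ∏ σ : K →+* ℂ, ‖σ y‖ := by
  rw [nrm_eq, ← prod_embeddings]
  rfl

theorem nrm_le {y : 𝓞 K} {Y : ℝ} (h : ∀ σ : K →+* ℂ, ‖σ y‖ ≤ Y) :
    nrm y ≤ Y ^ Module.finrank ℚ K := by
  rw [nrm_eq_prod, ← Embeddings.card K ℂ, ← Finset.card_univ, ← Finset.prod_const]
  exact Finset.prod_le_prod (fun σ _ => norm_nonneg _) fun σ _ => h σ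

/-- the conjugates of a nonzero integer are not small -/
theorem conj_ge {y : 𝓞 K} (hy : y ≠ 0) {Y : ℝ} (hY : 1 ≤ Y) (h : ∀ σ : K →+* ℂ, ‖σ y‖ ≤ Y) {d : ℕ}
    (hd : Module.finrank ℚ K ≤ d) (σ : K →+* ℂ) : 1 ≤ Y ^ d * ‖σ y‖ := by
  classical
  have h1 := one_le_nrm hy
  rw [nrm_eq_prod, ← Finset.mul_prod_erase Finset.univ _ (Finset.mem_univ σ)] at h1
  have h2 : ∏ τ ∈ Finset.univ.erase σ, ‖(τ : K →+* ℂ) y‖ ≤ Y ^ d := by
    calc ∏ τ ∈ Finset.univ.erase σ, ‖(τ : K →+* ℂ) y‖ ≤ ∏ _τ ∈ Finset.univ.erase σ, Y :=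
          Finset.prod_le_prod (fun τ _ => norm_nonneg _) fun τ _ => h τ
      _ = Y ^ (Finset.univ.erase σ).card := Finset.prod_const _
      _ ≤ Y ^ d := by
          apply pow_le_pow_right₀ hY
          refine (Finset.card_erase_le).trans ?_
          rw [Finset.card_univ, Embeddings.card K ℂ]
          exact hd
  have h3 := mul_le_mul_of_nonneg_left h2 (norm_nonneg (σ (y : K)))
  linarith

end

end Pool.Agent.Q103.FER
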