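import Mathlib
import Pool.Agent.W7.FH.Fin

/-!
# Fermat's equation over number fields: large exponents

If `x ^ n + y ^ n = z ^ n` in the ring of integers of a number field of degree `d` and the norm of
`z - x` is less than `2 ^ n / n ^ d`, then `z - x` divides `(d + 1)! x`, `(d + 1)! y` and
`(d + 1)! z`.
-/

set_option autoImplicit false

namespace Pool.Agent.Q103.FER

open NumberField IsDedekindDomain Pool.Agent.W7.FH

variable {K : Type} [Field K] [NumberField K]

/-- the size of an integer at a finite place -/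
theorem one_le_mul_norm (v : FinitePlace K) {x : 𝓞 K} (hx : x ≠ 0) :
    1 ≤ v (x : K) * |((Algebra.norm ℚ (x : K) : ℚ) : ℝ)| := by
  classical
  have hx0 : (x : K) ≠ 0 := RingOfIntegers.coe_ne_zero_iff.mpr hx
  have h1 := FinitePlace.prod_eq_inv_abs_norm hx0
  have hN : (0 : ℝ) < |((Algebra.norm ℚ (x : K) : ℚ) : ℝ)| := by
    have h2 : Algebra.norm ℚ (x : K) ≠ 0 := Algebra.norm_ne_zero_iff.mpr hx0
    have h3 : ((Algebra.norm ℚ (x : K) : ℚ) : ℝ) ≠ 0 := by exact_mod_cast h2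
    positivity
  have h2 : ∏ᶠ w : FinitePlace K, w (x : K) ≤ v (x : K) := by
    have hfin := FinitePlace.hasFiniteMulSupport hx0
    set S : Finset (FinitePlace K) := insert v hfin.toFinset with hS
    rw [finprod_eq_prod_of_mulSupport_subset (s := S) _ (by
      intro w hw
      rw [hS, Finset.coe_insert]
      right
      exact Finset.mem_coe.mpr ((Set.Finite.mem_toFinset hfin).mpr hw))]
    rw [← Finset.mul_prod_erase S (fun w : FinitePlace K => w (x : K)) (Finset.mem_insert_self _ _)]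
    calc v (x : K) * ∏ w ∈ S.erase v, w (x : K) ≤ v (x : K) * 1 := by
          apply mul_le_mul_of_nonneg_left _ (apply_nonneg _ _)
          exact Finset.prod_le_one (fun w _ => apply_nonneg _ _) (fun w _ => integer_le_one w x)
      _ = v (x : K) := mul_one _
  rw [h1] at h2
  push_cast at h2
  have h3 := mul_le_mul_of_nonneg_right h2 hN.le
  rwa [inv_mul_cancel₀ hN.ne'] at h3

/-- **The local statement** -/
theorem local_dvd (v : FinitePlace K) {n : ℕ} (hn : n ≠ 0) {x y z : 𝓞 K} (hx : x ≠ 0)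
    (h : x ^ n + y ^ n = z ^ n) (hzx : z - x ≠ 0)
    (hN : |((Algebra.norm ℚ ((z - x : 𝓞 K) : K) : ℚ) : ℝ)| * (n : ℝ) ^ Module.finrank ℚ K <
      2 ^ n) :
    v (((Module.finrank ℚ K + 1).factorial : K) * (x : K)) ≤ v ((z - x : 𝓞 K) : K) := by
  obtain ⟨d, hd⟩ : ∃ d, d = Module.finrank ℚ K := ⟨_, rfl⟩
  rw [← hd] at hN ⊢
  have hx0 : (x : K) ≠ 0 := RingOfIntegers.coe_ne_zero_iff.mpr hx
  have hvx : 0 < v (x : K) := FinitePlace.pos_iff.mpr hx0
  have hvx1 : v (x : K) ≤ 1 := integer_le_one v x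
  by_contra hcon
  push Not at hcon
  rw [map_mul] at hcon
  have hM1 : v ((d + 1).factorial : K) ≤ 1 := natCast_le_one v _
  obtain ⟨t, ht⟩ : ∃ t : K, t = ((z - x : 𝓞 K) : K) / (x : K) := ⟨_, rfl⟩
  have hvt : v t = v ((z - x : 𝓞 K) : K) / v (x : K) := by rw [ht, map_div₀]
  have hvtM : v t < v ((d + 1).factorial : K) := by
    rw [hvt, div_lt_iff₀ hvx]
    exact hcon
  have hvt1 : v t < 1 := lt_of_lt_of_le hvtM hM1
  have hvt0 : 0 ≤ v t := apply_nonneg _ _
  have hcond : ∀ p : ℕ, p.Prime → p ∣ n → v t ^ (p - 1) < v (p : K) := by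
    intro p hp _
    have hpR : (1 : ℝ) < p := by exact_mod_cast hp.one_lt
    rcases (natCast_le_one v p).lt_or_eq with h6 | h6
    · by_contra h9
      push Not at h9
      have h7 := nrm_ge v hp h6
      have h8 : v t ≤ ((p : ℕ) : ℝ)⁻¹ := (le_inv_nrm v hvt1).trans (by
        apply inv_anti₀ (by positivity)
        exact_mod_cast h7)
      have h10 : ((p : ℝ) ^ d)⁻¹ ≤ ((p : ℝ) ^ (p - 1))⁻¹ := by
        calc ((p : ℝ) ^ d)⁻¹ ≤ v (p : K) := by rw [hd]; exact prime_ge v hp.pos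
          _ ≤ v t ^ (p - 1) := h9
          _ ≤ (((p : ℕ) : ℝ)⁻¹) ^ (p - 1) := pow_le_pow_left₀ hvt0 h8 _
          _ = ((p : ℝ) ^ (p - 1))⁻¹ := by rw [inv_pow]
      have h11 : (p : ℝ) ^ (p - 1) ≤ (p : ℝ) ^ d :=
        (inv_le_inv₀ (by positivity) (by positivity)).mp h10
      have h12 : p - 1 ≤ d := (pow_le_pow_iff_right₀ hpR).mp h11
      have h13 : p ∣ (d + 1).factorial := (Nat.Prime.dvd_factorial hp).mpr (by omega)
      obtain ⟨c, hc⟩ := h13
      have h14 : v ((d + 1).factorial : K) ≤ v (p : K) := by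
        rw [hc]
        push_cast
        rw [map_mul]
        have := natCast_le_one v c
        have h15 : (0 : ℝ) ≤ v (p : K) := apply_nonneg _ _
        nlinarith
      have h15 : v t ^ (p - 1) ≤ v t := by
        have h16 : v t ^ (p - 1) ≤ v t ^ 1 :=
          pow_le_pow_of_le_one hvt0 hvt1.le (by have := hp.two_le; omega)
        rwa [pow_one] at h16
      linarith
    · rw [h6]
      exact pow_lt_one₀ hvt0 hvt1 (by have := hp.two_le; omega)
  have h3 := one_add_pow_gen v n t hvt1 hn hcond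
  have h4 : (1 + t) ^ n - 1 = ((y : K) / (x : K)) ^ n := by
    have h5 : 1 + t = (z : K) / (x : K) := by
      rw [ht]
      push_cast
      field_simp
      ring
    have h6 : (x : K) ^ n + (y : K) ^ n = (z : K) ^ n := by
      have := congrArg (fun a : 𝓞 K => (a : K)) h
      push_cast at this
      exact this
    rw [h5, div_pow, div_pow, eq_div_iff (pow_ne_zero n hx0), sub_mul,
      div_mul_cancel₀ _ (pow_ne_zero n hx0)]
    linear_combination -h6
  rw [h4, map_pow] at h3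
  have hρ0 : 0 ≤ v ((y : K) / (x : K)) := apply_nonneg _ _
  have hρ : v ((y : K) / (x : K)) < 1 := by
    by_contra hcon2
    push Not at hcon2
    have h7 := one_le_pow₀ (n := n) hcon2
    rw [h3] at h7
    have h8 : v (n : K) * v t ≤ 1 * v t := mul_le_mul_of_nonneg_right (natCast_le_one v n) hvt0
    linarith
  have hρ2 := le_inv_nrm v hρ
  have hN2 : (2 : ℝ) ≤ nrm v := by exact_mod_cast one_lt_nrm v
  have hρ3 : v ((y : K) / (x : K)) ≤ (2 : ℝ)⁻¹ := hρ2.trans (inv_anti₀ (by norm_num) hN2)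
  have h5 : v (n : K) * v t ≤ ((2 : ℝ) ^ n)⁻¹ := by
    rw [← h3, ← inv_pow]
    exact pow_le_pow_left₀ hρ0 hρ3 _
  have h6 := one_le_mul_norm v hzx
  have h7 : v ((z - x : 𝓞 K) : K) ≤ v t := by
    rw [hvt, le_div_iff₀ hvx]
    have : 0 ≤ v ((z - x : 𝓞 K) : K) := apply_nonneg _ _
    nlinarith
  obtain ⟨N, hNd⟩ : ∃ N, N = |((Algebra.norm ℚ ((z - x : 𝓞 K) : K) : ℚ) : ℝ)| := ⟨_, rfl⟩
  rw [← hNd] at h6 hN
  have hN0 : 0 ≤ N := by rw [hNd]; positivity
  have h8 : 1 ≤ v t * N := h6.trans (mul_le_mul_of_nonneg_right h7 hN0)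
  have hn0 : 0 < (n : ℝ) := by exact_mod_cast Nat.pos_of_ne_zero hn
  have h9 : 1 ≤ v (n : K) * (n : ℝ) ^ d := by
    have h10 := prime_ge v (K := K) (Nat.pos_of_ne_zero hn)
    rw [← hd] at h10
    have h11 := mul_le_mul_of_nonneg_right h10 (show (0 : ℝ) ≤ (n : ℝ) ^ d by positivity)
    rwa [inv_mul_cancel₀ (by positivity)] at h11
  have h10 : 1 ≤ (v (n : K) * v t) * (N * (n : ℝ) ^ d) := by
    calc (1 : ℝ) = 1 * 1 := by ring
      _ ≤ (v t * N) * (v (n : K) * (n : ℝ) ^ d) := mul_le_mul h8 h9 (by norm_num) (by linarith)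
      _ = _ := by ring
  have h11 : (v (n : K) * v t) * (N * (n : ℝ) ^ d) ≤ ((2 : ℝ) ^ n)⁻¹ * (N * (n : ℝ) ^ d) :=
    mul_le_mul_of_nonneg_right h5 (by positivity)
  have h12 : ((2 : ℝ) ^ n)⁻¹ * (N * (n : ℝ) ^ d) < 1 := by
    rw [inv_mul_lt_iff₀ (by positivity), mul_one]
    exact hN
  linarith

/-- an element which is integral at all finite places is an integer -/
theorem exists_integer {a : K} (h : ∀ v : FinitePlace K, v a ≤ 1) : ∃ b : 𝓞 K, (b : K) = a := by
  refine HeightOneSpectrum.mem_integers_of_valuation_le_one (R := 𝓞 K) K a fun w => ?_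
  have h1 := h (FinitePlace.mk w)
  rw [FinitePlace.mk_apply, FinitePlace.norm_embedding'] at h1
  have h2 : (WithZeroMulInt.toNNReal (HeightOneSpectrum.absNorm_ne_zero w) (w.valuation K a)) ≤ 1 := by
    exact_mod_cast h1
  exact (WithZeroMulInt.toNNReal_le_one_iff (HeightOneSpectrum.one_lt_absNorm_nnreal w)).mp h2

theorem dvd_of_places {a b : 𝓞 K} (ha : a ≠ 0) (h : ∀ v : FinitePlace K, v (b : K) ≤ v (a : K)) :
    a ∣ b := by
  have ha0 : (a : K) ≠ 0 := RingOfIntegers.coe_ne_zero_iff.mpr ha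
  obtain ⟨c, hc⟩ := exists_integer (K := K) (a := (b : K) / (a : K)) (fun v => by
    rw [map_div₀, div_le_one (FinitePlace.pos_iff.mpr ha0)]
    exact h v)
  refine ⟨c, ?_⟩
  apply RingOfIntegers.coe_injective
  have e : ((a * c : 𝓞 K) : K) = (a : K) * (c : K) := by push_cast; rfl
  show (b : K) = ((a * c : 𝓞 K) : K)
  rw [e, hc]
  field_simp

/-- **Large exponents.** -/
theorem large {n : ℕ} (hn : n ≠ 0) {x y z : 𝓞 K} (hx : x ≠ 0)
    (h : x ^ n + y ^ n = z ^ n) (hzx : z - x ≠ 0)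
    (hN : |((Algebra.norm ℚ ((z - x : 𝓞 K) : K) : ℚ) : ℝ)| * (n : ℝ) ^ Module.finrank ℚ K <
      2 ^ n) :
    z - x ∣ ((Module.finrank ℚ K + 1).factorial : 𝓞 K) * x ∧
    z - x ∣ ((Module.finrank ℚ K + 1).factorial : 𝓞 K) * y ∧
    z - x ∣ ((Module.finrank ℚ K + 1).factorial : 𝓞 K) * z := by
  obtain ⟨M, hM⟩ : ∃ M : ℕ, M = (Module.finrank ℚ K + 1).factorial := ⟨_, rfl⟩
  have h1 : ∀ v : FinitePlace K, v ((M : K) * (x : K)) ≤ v ((z - x : 𝓞 K) : K) := by
    intro v
    rw [hM]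
    exact local_dvd v hn hx h hzx hN
  have h2 : ∀ v : FinitePlace K, v ((M : K) * (z : K)) ≤ v ((z - x : 𝓞 K) : K) := by
    intro v
    have e : (M : K) * (z : K) = (M : K) * ((z - x : 𝓞 K) : K) + (M : K) * (x : K) := by
      push_cast
      ring
    rw [e]
    refine (FinitePlace.add_le v _ _).trans (max_le ?_ (h1 v))
    rw [map_mul]
    have h3 := natCast_le_one v M
    have h4 : 0 ≤ v ((z - x : 𝓞 K) : K) := apply_nonneg _ _
    nlinarith
  have h3 : ∀ v : FinitePlace K, v ((M : K) * (y : K)) ≤ v ((z - x : 𝓞 K) : K) := by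
    intro v
    have h4 : v (y : K) ^ n ≤ (max (v (z : K)) (v (x : K))) ^ n := by
      have h6 : (y : K) ^ n = (z : K) ^ n + -((x : K) ^ n) := by
        have := congrArg (fun a : 𝓞 K => (a : K)) h
        push_cast at this
        linear_combination this
      rw [← map_pow, h6]
      refine (FinitePlace.add_le v _ _).trans (max_le ?_ ?_)
      · rw [map_pow]
        exact pow_le_pow_left₀ (apply_nonneg _ _) (le_max_left _ _) _
      · rw [map_neg_eq_map, map_pow]
        exact pow_le_pow_left₀ (apply_nonneg _ _) (le_max_right _ _) _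
    have h5 : v (y : K) ≤ max (v (z : K)) (v (x : K)) :=
      le_of_pow_le_pow_left₀ hn (le_max_of_le_left (apply_nonneg _ _)) h4
    have hM0 : 0 ≤ v (M : K) := apply_nonneg _ _
    rw [map_mul]
    refine (mul_le_mul_of_nonneg_left h5 hM0).trans ?_
    rw [mul_max_of_nonneg _ _ hM0, ← map_mul, ← map_mul]
    exact max_le (h2 v) (h1 v)
  have cast : ∀ a : 𝓞 K, (((M : 𝓞 K) * a : 𝓞 K) : K) = (M : K) * (a : K) := by
    intro a
    push_cast
    rfl
  rw [← hM]
  refine ⟨?_, ?_, ?_⟩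
  · exact dvd_of_places hzx fun v => by rw [cast]; exact h1 v
  · exact dvd_of_places hzx fun v => by rw [cast]; exact h3 v
  · exact dvd_of_places hzx fun v => by rw [cast]; exact h2 v

end Pool.Agent.Q103.FER
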