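import Mathlib
import Pool.Agent.Q103.FER.Large
import Pool.Agent.Q103.FER.Div

/-!
# Fermat's equation at points with small digits
-/

set_option autoImplicit false

namespace Pool.Agent.Q103.FER

open Polynomial NumberField Pool.Agent.Q103.SD Pool.Agent.Q103.SD.NF

section

variable {K : Type} [Field K] [NumberField K]

/-- three polynomials with small digits -/
structure FData (T B : ℝ) (k : ℕ) (t : 𝓞 K) (f : Fin 3 → (𝓞 K)[X]) : Prop where
  big : ∀ σ : K →+* ℂ, T ≤ ‖σ t‖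
  deg : ∀ i, (f i).natDegree ≤ k
  coeff : ∀ (i : Fin 3) (j : ℕ) (σ : K →+* ℂ), ‖σ ((f i).coeff j)‖ ≤ B
  last : ∀ (i : Fin 3) (σ : K →+* ℂ), ‖σ ((f i).coeff 0)‖ ≤ 1
  ex : ∃ i, (f i).coeff 0 ≠ 0
  val : ∀ i, (f i).eval t ≠ 0

/-- the three polynomials are constant multiples of one polynomial -/
def Prp (f : Fin 3 → (𝓞 K)[X]) : Prop :=
  ∃ (G : K[X]) (a : Fin 3 → K), ∀ i, (f i).map (algebraMap (𝓞 K) K) = C (a i) * G

/-- an integer whose conjugates are at most `1` is zero or a root of unity -/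
theorem root_of_unity {x : 𝓞 K} (h : ∀ σ : K →+* ℂ, ‖σ x‖ ≤ 1) (hx : x ≠ 0) :
    ∃ m : ℕ, 0 < m ∧ x ^ m = 1 := by
  have hx0 : (x : K) ≠ 0 := RingOfIntegers.coe_ne_zero_iff.mpr hx
  obtain ⟨m, hm, h1⟩ := Embeddings.pow_eq_one_of_norm_le_one (x := (x : K)) K ℂ hx0 x.2 h
  refine ⟨m, hm, ?_⟩
  apply RingOfIntegers.coe_injective
  rw [map_pow, map_one]
  exact h1

theorem isUnit_of_small {x : 𝓞 K} (h : ∀ σ : K →+* ℂ, ‖σ x‖ ≤ 1) (hx : x ≠ 0) : IsUnit x := by
  obtain ⟨m, hm, h1⟩ := root_of_unity h hx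
  exact IsUnit.of_pow_eq_one h1 hm.ne'

/-- **Small exponents.** -/
theorem small_case {T B : ℝ} {k : ℕ} {t : 𝓞 K} {f : Fin 3 → (𝓞 K)[X]} (hD : FData T B k t f)
    (hB : 1 ≤ B) (hT : 3 * B * (B * B) ^ (JJ (3 * k) 3) < T) {n : ℕ} (hn : 3 ≤ n)
    (hnB : (n : ℝ) ≤ B)
    (heq : (f 0).eval t ^ n + (f 1).eval t ^ n = (f 2).eval t ^ n) : Prp f := by
  have hB2 : 1 ≤ B * B := by nlinarith
  have hT1 : 1 < T := by
    have h1 : (1 : ℝ) ≤ (B * B) ^ (JJ (3 * k) 3) := one_le_pow₀ hB2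
    nlinarith
  have ht0 : t ≠ 0 := by
    rintro rfl
    obtain ⟨σ⟩ : Nonempty (K →+* ℂ) := inferInstance
    have h1 := hD.big σ
    simp at h1
    linarith
  have hne : ∀ i, f i ≠ 0 := fun i h => hD.val i (by rw [h, eval_zero])
  obtain ⟨a, ha⟩ : ∃ a : Fin 3 → 𝓞 K, a = ![1, 1, -1] := ⟨_, rfl⟩
  obtain ⟨e, he⟩ : ∃ e : Fin 3 → Fin 3 → ℕ, e = fun i j => if i = j then n else 0 := ⟨_, rfl⟩
  have hPP : ∀ i, PP f (a i) (e i) = C (a i) * f i ^ n := by
    intro i
    unfold PP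
    rw [he]
    congr 1
    simp only [pow_ite, pow_zero]
    rw [Finset.prod_ite_eq]
    simp
  have hev : ∀ i, (PP f (a i) (e i)).eval t = a i * (f i).eval t ^ n := by
    intro i
    rw [hPP, eval_mul, eval_C, eval_pow]
  have ha0 : ∀ i, a i ≠ 0 := by
    intro i
    rw [ha]
    fin_cases i <;> simp
  have hau : ∀ i, IsUnit (a i) := by
    intro i
    rw [ha]
    fin_cases i <;> simp
  have hsum0 : ∑ i, (PP f (a i) (e i)).eval t = 0 := by
    rw [Fin.sum_univ_three, hev, hev, hev, ha]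
    simp only [Matrix.cons_val_zero, Matrix.cons_val_one, Matrix.cons_val_two, Matrix.head_cons,
      Matrix.tail_cons]
    linear_combination heq
  have hsumP : ∑ i, PP f (a i) (e i) = f 0 ^ n + f 1 ^ n - f 2 ^ n := by
    rw [Fin.sum_univ_three, hPP, hPP, hPP, ha]
    simp only [Matrix.cons_val_zero, Matrix.cons_val_one, Matrix.cons_val_two, Matrix.head_cons,
      Matrix.tail_cons, map_one, map_neg]
    ring
  obtain ⟨k0, hk0⟩ := hD.ex
  have hnd : ¬ t ∣ (PP f (a k0) (e k0)).eval t := by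
    intro h1
    rw [hev, (hau k0).dvd_mul_left] at h1
    have h2 : t ∣ (f k0).eval t - (f k0).eval 0 := by
      have := sub_dvd_eval_sub t 0 (f k0)
      rwa [sub_zero] at this
    have h3 : t ∣ (f k0).eval t ^ n - (f k0).eval 0 ^ n := h2.trans (sub_dvd_pow_sub_pow _ _ n)
    have h4 : t ∣ (f k0).eval 0 ^ n := (dvd_sub_right h1).mp h3
    have h5 : IsUnit ((f k0).eval 0) := by
      rw [← coeff_zero_eq_eval_zero]
      exact isUnit_of_small (hD.last k0) hk0
    exact not_unit hT1 hD.big (isUnit_of_dvd_unit h4 (h5.pow n))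
  have hid := identity (A := 𝓞 K) (κ := Fin 3) (ι := Fin 3) sizeFn_house ht0
    (fun x hx hx' => small_house hD.big x hx hx') (F := f) hne (D := 3 * k)
    (by rw [Fin.sum_univ_three]; have := hD.deg 0; have := hD.deg 1; have := hD.deg 2; omega)
    (H := B) hB (fun i => house_le (by norm_num) (hD.last i))
    (fun i j => house_le (by linarith) (hD.coeff i j)) (α := a) ha0
    (by
      intro i
      refine house_le (by linarith) fun σ => ?_
      rw [ha]
      fin_cases i <;> simpa using hB)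
    e (N := n) (by omega) (by
      intro i
      rw [he]
      simp)
    (by
      rw [Fintype.card_fin]
      push_cast
      refine lt_of_le_of_lt ?_ hT
      have h1 : ((n : ℝ) * B) ^ (JJ (3 * k) 3) ≤ (B * B) ^ (JJ (3 * k) 3) :=
        pow_le_pow_left₀ (by positivity) (mul_le_mul_of_nonneg_right hnB (by linarith)) _
      exact mul_le_mul_of_nonneg_left h1 (by positivity))
    hsum0 k0 hnd (by
      intro S h1 h2
      refine no_subsum (v := fun i => (PP f (a i) (e i)).eval t) (fun i => ?_) hsum0 S h1 h2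
      rw [hev]
      exact mul_ne_zero (ha0 i) (pow_ne_zero _ (hD.val i)))
  rw [hsumP] at hid
  obtain ⟨φ, hφ⟩ : ∃ φ : 𝓞 K →+* K, φ = algebraMap (𝓞 K) K := ⟨_, rfl⟩
  have hinj : Function.Injective φ := by
    rw [hφ]
    exact FaithfulSMul.algebraMap_injective (𝓞 K) K
  have hK : (f 0).map φ ^ n + (f 1).map φ ^ n = (f 2).map φ ^ n := by
    have h1 := congrArg (Polynomial.map φ) hid
    simp only [Polynomial.map_sub, Polynomial.map_add, Polynomial.map_pow, Polynomial.map_zero]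
      at h1
    linear_combination h1
  have hKne : ∀ i, (f i).map φ ≠ 0 := fun i h =>
    hne i ((Polynomial.map_eq_zero_iff hinj).mp h)
  have hn0 : (n : K) ≠ 0 := by exact_mod_cast (by omega : n ≠ 0)
  obtain ⟨G, a', b', c', ⟨e1, e2, e3⟩, u1, u2, u3⟩ :=
    fermatLastTheoremWith'_polynomial hn hn0 _ _ _ (hKne 0) (hKne 1) (hKne 2) hK
  obtain ⟨a1, -, h1⟩ := Polynomial.isUnit_iff.mp u1
  obtain ⟨a2, -, h2⟩ := Polynomial.isUnit_iff.mp u2
  obtain ⟨a3, -, h3⟩ := Polynomial.isUnit_iff.mp u3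
  refine ⟨G, ![a1, a2, a3], fun i => ?_⟩
  rw [← hφ]
  fin_cases i
  · show (f 0).map φ = C a1 * G
    rw [h1, e1]
  · show (f 1).map φ = C a2 * G
    rw [h2, e2]
  · show (f 2).map φ = C a3 * G
    rw [h3, e3]

omit [NumberField K] in
/-- associated polynomials differ by a constant -/
theorem exists_const {p q : K[X]} (h1 : p ∣ q) (h2 : q ∣ p) :
    ∃ c : K, q = C c * p := by
  obtain ⟨u, hu⟩ := associated_of_dvd_dvd h1 h2
  obtain ⟨c, -, hc⟩ := Polynomial.isUnit_iff.mp u.isUnit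
  exact ⟨c, by rw [hc, ← hu, mul_comm]⟩

/-- **Large exponents.** -/
theorem large_case {T B : ℝ} {k : ℕ} {t : 𝓞 K} {f : Fin 3 → (𝓞 K)[X]} (hD : FData T B k t f)
    (hB : 1 ≤ B) {d : ℕ} (hd : Module.finrank ℚ K ≤ d)
    (hT1 : 4 * ((2 * B) ^ (d + 1)) ^ 2 ≤ T)
    (hT2 : 4 * (2 * B) ^ (d + 1) * ((d + 1).factorial : ℝ) *
      ((2 * (2 * B)) ^ (k + 1) * (2 * B)) < T) {n : ℕ} (hn : 3 ≤ n) {Y : ℝ} (hY1 : 1 ≤ Y)
    (hY : ∀ (i : Fin 3) (σ : K →+* ℂ), 2 * ‖σ ((f i).eval t : 𝓞 K)‖ ≤ Y)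
    (hnY : (Y * n) ^ d < 2 ^ n)
    (heq : (f 0).eval t ^ n + (f 1).eval t ^ n = (f 2).eval t ^ n) : Prp f := by
  classical
  have hn0 : n ≠ 0 := by omega
  have hnR : (1 : ℝ) ≤ n := by exact_mod_cast (by omega : 1 ≤ n)
  obtain ⟨φ, hφ⟩ : ∃ φ : 𝓞 K →+* K, φ = algebraMap (𝓞 K) K := ⟨_, rfl⟩
  obtain ⟨M, hM⟩ : ∃ M : ℕ, M = (Module.finrank ℚ K + 1).factorial := ⟨_, rfl⟩
  have hM0 : M ≠ 0 := by rw [hM]; exact Nat.factorial_ne_zero _
  have hMd : (M : ℝ) ≤ ((d + 1).factorial : ℝ) := by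
    rw [hM]
    exact_mod_cast Nat.factorial_le (by omega)
  -- a difference or a sum of two of the values divides the values
  have key : ∀ (i j : Fin 3) (ε : 𝓞 K), (ε = 1 ∨ ε = -1) →
      (f i).eval t + ε * (f j).eval t ≠ 0 →
      (f i).eval t + ε * (f j).eval t ∣ (M : 𝓞 K) * (f 0).eval t ∧
      (f i).eval t + ε * (f j).eval t ∣ (M : 𝓞 K) * (f 1).eval t ∧
      (f i).eval t + ε * (f j).eval t ∣ (M : 𝓞 K) * (f 2).eval t →
      ∀ l, (f i + C ε * f j).map φ ∣ (f l).map φ := by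
    intro i j ε hε hne hdvd l
    have hεs : ∀ (x : 𝓞 K) (σ : K →+* ℂ), ‖σ ((ε * x : 𝓞 K) : K)‖ = ‖σ (x : K)‖ := by
      intro x σ
      rcases hε with rfl | rfl
      · rw [one_mul]
      · have e : ((-1 * x : 𝓞 K) : K) = -(x : K) := by push_cast; ring
        rw [e, map_neg, norm_neg]
    have hev : (f i + C ε * f j).eval t = (f i).eval t + ε * (f j).eval t := by
      rw [eval_add, eval_mul, eval_C]
    have hP0 : f i + C ε * f j ≠ 0 := by
      intro h
      rw [h, eval_zero] at hev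
      exact hne hev.symm
    have hPc : ∀ (m : ℕ) (σ : K →+* ℂ), ‖σ ((f i + C ε * f j).coeff m)‖ ≤ 2 * B := by
      intro m σ
      rw [coeff_add, coeff_C_mul]
      have e : (((f i).coeff m + ε * (f j).coeff m : 𝓞 K) : K) =
          ((f i).coeff m : K) + ((ε * (f j).coeff m : 𝓞 K) : K) := by push_cast; rfl
      rw [e, map_add]
      refine (norm_add_le _ _).trans ?_
      rw [hεs]
      have := hD.coeff i m σ
      have := hD.coeff j m σ
      linarith
    have hl : ∀ σ : K →+* ℂ, 1 ≤ (2 * B) ^ (d + 1) * ‖σ (f i + C ε * f j).leadingCoeff‖ := by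
      intro σ
      refine (conj_ge (leadingCoeff_ne_zero.mpr hP0) (Y := 2 * B) (by linarith)
        (fun τ => hPc _ τ) hd σ).trans ?_
      apply mul_le_mul_of_nonneg_right _ (norm_nonneg _)
      exact pow_le_pow_right₀ (by linarith) (by omega)
    have hdv : (f i + C ε * f j).eval t ∣ (M : 𝓞 K) * (f l).eval t := by
      rw [hev]
      fin_cases l
      · exact hdvd.1
      · exact hdvd.2.1
      · exact hdvd.2.2
    rw [hφ]
    refine dvd_poly hD.big (H := 2 * B) (B := (2 * B) ^ (d + 1)) (by linarith) ?_ hPc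
      (fun m σ => (hD.coeff l m σ).trans (by linarith)) (hD.deg l) hP0 hl hM0 hT1 ?_ hdv
    · exact le_self_pow₀ (by linarith) (by omega)
    · refine lt_of_le_of_lt ?_ hT2
      apply mul_le_mul_of_nonneg_right _ (by positivity)
      exact mul_le_mul_of_nonneg_left hMd (by positivity)
  -- the norm condition
  have hnorm : ∀ (i j : Fin 3) (ε : 𝓞 K), (ε = 1 ∨ ε = -1) →
      |((Algebra.norm ℚ (((f i).eval t + ε * (f j).eval t : 𝓞 K) : K) : ℚ) : ℝ)| *
        (n : ℝ) ^ Module.finrank ℚ K < 2 ^ n := by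
    intro i j ε hε
    have h1 : nrm ((f i).eval t + ε * (f j).eval t) ≤ Y ^ Module.finrank ℚ K := by
      apply nrm_le
      intro σ
      have e : (((f i).eval t + ε * (f j).eval t : 𝓞 K) : K) =
          (((f i).eval t : 𝓞 K) : K) + (ε : K) * (((f j).eval t : 𝓞 K) : K) := by push_cast; rfl
      have hε1 : ‖σ (ε : K)‖ = 1 := by
        rcases hε with rfl | rfl
        · simp
        · simp
      rw [e, map_add, map_mul]
      refine (norm_add_le _ _).trans ?_
      rw [norm_mul, hε1, one_mul]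
      have := hY i σ
      have := hY j σ
      linarith
    have h2 : nrm ((f i).eval t + ε * (f j).eval t) * (n : ℝ) ^ Module.finrank ℚ K ≤
        (Y * n) ^ d := by
      calc nrm ((f i).eval t + ε * (f j).eval t) * (n : ℝ) ^ Module.finrank ℚ K
          ≤ Y ^ Module.finrank ℚ K * (n : ℝ) ^ Module.finrank ℚ K :=
            mul_le_mul_of_nonneg_right h1 (by positivity)
        _ = (Y * n) ^ Module.finrank ℚ K := by rw [mul_pow]
        _ ≤ (Y * n) ^ d := pow_le_pow_right₀ (one_le_mul_of_one_le_of_one_le hY1 hnR) hd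
    exact lt_of_le_of_lt h2 hnY
  have hv0 := hD.val 0
  have hv1 := hD.val 1
  have hv2 := hD.val 2
  obtain ⟨x, hx⟩ : ∃ x, x = (f 0).eval t := ⟨_, rfl⟩
  obtain ⟨y, hy⟩ : ∃ y, y = (f 1).eval t := ⟨_, rfl⟩
  obtain ⟨z, hz⟩ : ∃ z, z = (f 2).eval t := ⟨_, rfl⟩
  rw [← hx] at hv0
  rw [← hy] at hv1
  rw [← hz] at hv2
  rw [← hx, ← hy, ← hz] at heq
  obtain ⟨F, hF⟩ : ∃ F : Fin 3 → K[X], F = fun i => (f i).map φ := ⟨_, rfl⟩
  -- first difference
  have hzx : z - x ≠ 0 := by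
    intro h
    have h1 : z = x := sub_eq_zero.mp h
    rw [h1] at heq
    exact pow_ne_zero n hv1 (by linear_combination heq)
  have hzy : z - y ≠ 0 := by
    intro h
    have h1 : z = y := sub_eq_zero.mp h
    rw [h1] at heq
    exact pow_ne_zero n hv0 (by linear_combination heq)
  have hn1 := hnorm 2 0 (-1) (Or.inr rfl)
  rw [← hz, ← hx, neg_one_mul, ← sub_eq_add_neg] at hn1
  obtain ⟨l1, l2, l3⟩ := large hn0 hv0 heq hzx hn1
  rw [← hM] at l1 l2 l3
  have D1 : ∀ l, F 2 - F 0 ∣ F l := by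
    intro l
    have h1 := key 2 0 (-1) (Or.inr rfl) (by rw [← hz, ← hx, neg_one_mul, ← sub_eq_add_neg]; exact hzx)
      (by rw [← hx, ← hy, ← hz, neg_one_mul, ← sub_eq_add_neg]; exact ⟨l1, l2, l3⟩) l
    rw [Polynomial.map_add, Polynomial.map_mul, map_C, map_neg, map_one, map_neg, map_one,
      neg_one_mul, ← sub_eq_add_neg] at h1
    rw [hF]
    exact h1
  have hn2 := hnorm 2 1 (-1) (Or.inr rfl)
  rw [← hz, ← hy, neg_one_mul, ← sub_eq_add_neg] at hn2
  obtain ⟨m1, m2, m3⟩ := large hn0 hv1 (by rw [add_comm]; exact heq) hzy hn2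
  rw [← hM] at m1 m2 m3
  have D2 : ∀ l, F 2 - F 1 ∣ F l := by
    intro l
    have h1 := key 2 1 (-1) (Or.inr rfl) (by rw [← hz, ← hy, neg_one_mul, ← sub_eq_add_neg]; exact hzy)
      (by rw [← hx, ← hy, ← hz, neg_one_mul, ← sub_eq_add_neg]; exact ⟨m2, m1, m3⟩) l
    rw [Polynomial.map_add, Polynomial.map_mul, map_C, map_neg, map_one, map_neg, map_one,
      neg_one_mul, ← sub_eq_add_neg] at h1
    rw [hF]
    exact h1
  have hinj : Function.Injective φ := by
    rw [hφ]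
    exact FaithfulSMul.algebraMap_injective (𝓞 K) K
  have hP1 : F 2 - F 0 ≠ 0 := by
    intro h
    apply hzx
    have h1 : (f 2 - f 0).map φ = 0 := by
      rw [Polynomial.map_sub]
      rw [hF] at h
      exact h
    have h2 := (Polynomial.map_eq_zero_iff hinj).mp h1
    rw [hz, hx, ← eval_sub, h2, eval_zero]
  obtain ⟨c2, hc2⟩ := exists_const (dvd_sub (D1 2) (D1 1)) (dvd_sub (D2 2) (D2 0))
  -- the third combination
  have third : ∃ c3 : K, ∃ c4 : K, C c3 * (F 2 - F 0) = F 2 + F 2 + C c4 * (F 2 - F 0) := by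
    rcases Nat.even_or_odd n with hev | hodd
    · have heq2 : (-x) ^ n + y ^ n = z ^ n := by rw [hev.neg_pow]; exact heq
      have hne : z - -x ≠ 0 := by
        intro h
        have h1 : z = -x := sub_eq_zero.mp h
        rw [h1] at heq2
        exact pow_ne_zero n hv1 (by linear_combination heq2)
      have hn3 := hnorm 2 0 1 (Or.inl rfl)
      rw [← hz, ← hx, one_mul, ← sub_neg_eq_add] at hn3
      obtain ⟨p1, p2, p3⟩ := large hn0 (neg_ne_zero.mpr hv0) heq2 hne hn3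
      rw [← hM] at p1 p2 p3
      have p1' : z - -x ∣ (M : 𝓞 K) * x := by
        rw [mul_neg, dvd_neg] at p1
        exact p1
      have D3 : ∀ l, F 2 + F 0 ∣ F l := by
        intro l
        have h1 := key 2 0 1 (Or.inl rfl) (by rw [← hz, ← hx, one_mul, ← sub_neg_eq_add]; exact hne)
          (by rw [← hx, ← hy, ← hz, one_mul, ← sub_neg_eq_add]; exact ⟨p1', p2, p3⟩) l
        rw [Polynomial.map_add, Polynomial.map_mul, map_C, map_one, map_one, one_mul] at h1
        rw [hF]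
        exact h1
      obtain ⟨c3, hc3⟩ := exists_const (dvd_add (D1 2) (D1 0)) (dvd_sub (D3 2) (D3 0))
      refine ⟨c3, -1, ?_⟩
      rw [← hc3, map_neg, map_one]
      ring
    · have heq2 : (-y) ^ n + z ^ n = x ^ n := by
        rw [hodd.neg_pow]
        linear_combination -heq
      have hne : x - -y ≠ 0 := by
        intro h
        have h1 : x = -y := sub_eq_zero.mp h
        rw [h1] at heq2
        exact pow_ne_zero n hv2 (by linear_combination heq2)
      have hn3 := hnorm 0 1 1 (Or.inl rfl)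
      rw [← hx, ← hy, one_mul, ← sub_neg_eq_add] at hn3
      obtain ⟨p1, p2, p3⟩ := large hn0 (neg_ne_zero.mpr hv1) heq2 hne hn3
      rw [← hM] at p1 p2 p3
      have p1' : x - -y ∣ (M : 𝓞 K) * y := by
        rw [mul_neg, dvd_neg] at p1
        exact p1
      have D3 : ∀ l, F 0 + F 1 ∣ F l := by
        intro l
        have h1 := key 0 1 1 (Or.inl rfl) (by rw [← hx, ← hy, one_mul, ← sub_neg_eq_add]; exact hne)
          (by rw [← hx, ← hy, ← hz, one_mul, ← sub_neg_eq_add]; exact ⟨p3, p1', p2⟩) l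
        rw [Polynomial.map_add, Polynomial.map_mul, map_C, map_one, map_one, one_mul] at h1
        rw [hF]
        exact h1
      obtain ⟨c3, hc3⟩ := exists_const (dvd_add (D1 0) (D1 1)) (dvd_sub (D3 2) (D3 0))
      refine ⟨c3, -1 - c2, ?_⟩
      rw [← hc3, map_sub, map_neg, map_one, sub_mul, ← hc2]
      ring
  obtain ⟨c3, c4, h3⟩ := third
  have hF2 : F 2 = C ((c3 - c4) / 2) * (F 2 - F 0) := by
    have h5 : C (2 : K) * F 2 = C (c3 - c4) * (F 2 - F 0) := by
      have e2 : C (2 : K) = 2 := map_ofNat C 2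
      rw [e2, map_sub]
      linear_combination -h3
    have h6 : C ((c3 - c4) / 2) = C (1 / 2 : K) * C (c3 - c4) := by
      rw [← map_mul]
      congr 1
      ring
    rw [h6, mul_assoc, ← h5, ← mul_assoc, ← map_mul]
    have h7 : (1 / 2 : K) * 2 = 1 := by norm_num
    rw [h7, map_one, one_mul]
  obtain ⟨c5, hc5⟩ : ∃ c5 : K, c5 = (c3 - c4) / 2 := ⟨_, rfl⟩
  rw [← hc5] at hF2
  obtain ⟨G, hG⟩ : ∃ G, G = F 2 - F 0 := ⟨_, rfl⟩
  rw [← hG] at hF2 hc2
  refine ⟨G, ![c5 - 1, c5 - c2, c5], fun i => ?_⟩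
  rw [← hφ]
  have hFi : ∀ i, (f i).map φ = F i := fun i => by rw [hF]
  rw [hFi]
  fin_cases i
  · show F 0 = C (c5 - 1) * G
    rw [map_sub, map_one, sub_mul, ← hF2, one_mul, hG]
    ring
  · show F 1 = C (c5 - c2) * G
    rw [map_sub, sub_mul, ← hF2, ← hc2]
    ring
  · show F 2 = C c5 * G
    exact hF2

end

end Pool.Agent.Q103.FER
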