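import Mathlib
import Pool.Agent.Q103.FER.Main
import Pool.Agent.Q103.SD.NFChoose

/-!
# Fermat's equation at points with small digits: the constants
-/

set_option autoImplicit false

namespace Pool.Agent.Q103.FER

open Polynomial NumberField Filter Pool.Agent.Q103.SD Pool.Agent.Q103.SD.NF

/-- a power of two is large -/
theorem two_pow_large (d k : ℕ) : ∃ n₀ : ℕ, ∀ n : ℕ, n₀ ≤ n →
    (2 * (k + 1) * (n : ℝ) ^ 2 * Real.exp (k * √n)) ^ d < 2 ^ n := by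
  obtain ⟨c, hc⟩ : ∃ c : ℕ, c = d * (3 * k + 6) := ⟨_, rfl⟩
  refine ⟨(2 * c + 1) ^ 2, fun n hn => ?_⟩
  have hnR : ((2 * c + 1 : ℕ) : ℝ) ^ 2 ≤ n := by exact_mod_cast hn
  obtain ⟨s, hs⟩ : ∃ s : ℝ, s = √n := ⟨_, rfl⟩
  have hs2 : s ^ 2 = n := by rw [hs]; exact Real.sq_sqrt (by positivity)
  have hs0 : 0 ≤ s := by rw [hs]; positivity
  have hsc : (2 * c + 1 : ℝ) ≤ s := by
    rw [hs]
    apply Real.le_sqrt_of_sq_le
    push_cast at hnR
    exact hnR
  have hc0 : (0 : ℝ) ≤ c := by positivity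
  have hs1 : 1 ≤ s := by linarith
  rw [← hs, ← hs2]
  have h1 : (2 * (k + 1) : ℝ) ≤ Real.exp (2 * (k + 1)) := by
    have := Real.add_one_le_exp (2 * (k + 1) : ℝ)
    linarith
  have h2 : (s ^ 2) ^ 2 ≤ Real.exp (4 * s) := by
    have h3 : s ≤ Real.exp s := by
      have := Real.add_one_le_exp s
      linarith
    calc (s ^ 2) ^ 2 = s ^ 4 := by ring
      _ ≤ (Real.exp s) ^ 4 := pow_le_pow_left₀ hs0 h3 4
      _ = Real.exp (4 * s) := by rw [← Real.exp_nat_mul]; norm_num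
  have h3 : 2 * (k + 1) * (s ^ 2) ^ 2 * Real.exp (k * s) ≤ Real.exp ((3 * k + 6) * s) := by
    calc 2 * (k + 1) * (s ^ 2) ^ 2 * Real.exp (k * s)
        ≤ Real.exp (2 * (k + 1)) * Real.exp (4 * s) * Real.exp (k * s) := by
          apply mul_le_mul_of_nonneg_right _ (by positivity)
          exact mul_le_mul h1 h2 (by positivity) (by positivity)
      _ = Real.exp (2 * (k + 1) + 4 * s + k * s) := by rw [Real.exp_add, Real.exp_add]
      _ ≤ Real.exp ((3 * k + 6) * s) := by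
          apply Real.exp_le_exp.mpr
          have hk : (0 : ℝ) ≤ k := by positivity
          nlinarith
  have h4 : (2 * (k + 1) * (s ^ 2) ^ 2 * Real.exp (k * s)) ^ d ≤ Real.exp (c * s) := by
    calc (2 * (k + 1) * (s ^ 2) ^ 2 * Real.exp (k * s)) ^ d ≤ (Real.exp ((3 * k + 6) * s)) ^ d :=
          pow_le_pow_left₀ (by positivity) h3 d
      _ = Real.exp (c * s) := by
          rw [← Real.exp_nat_mul, hc]
          push_cast
          ring_nf
  refine lt_of_le_of_lt h4 ?_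
  have h5 : (2 : ℝ) ^ n = Real.exp (n * Real.log 2) := by
    rw [Real.exp_nat_mul, Real.exp_log (by norm_num)]
  rw [h5, ← hs2]
  apply Real.exp_lt_exp.mpr
  have h6 := Real.log_two_gt_d9
  nlinarith

/-- the choice of the constants -/
theorem choose (d k : ℕ) : ∃ δ₀ : ℝ, 0 < δ₀ ∧ ∀ δ : ℝ, 0 < δ → δ ≤ δ₀ → ∀ᶠ T : ℝ in atTop,
    1 ≤ T ∧ 1 ≤ T ^ δ ∧ 3 * T ^ δ * (T ^ δ * T ^ δ) ^ (JJ (3 * k) 3) < T ∧
    4 * ((2 * T ^ δ) ^ (d + 1)) ^ 2 ≤ T ∧
    4 * (2 * T ^ δ) ^ (d + 1) * ((d + 1).factorial : ℝ) *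
      ((2 * (2 * T ^ δ)) ^ (k + 1) * (2 * T ^ δ)) < T ∧
    ∀ n : ℕ, T ^ δ < n →
      ((2 * (k + 1) * T ^ δ * Real.exp (k * T ^ (δ / 2))) * (n : ℝ)) ^ d < 2 ^ n := by
  obtain ⟨J, hJ⟩ : ∃ J, J = JJ (3 * k) 3 := ⟨_, rfl⟩
  rw [← hJ]
  obtain ⟨c4, hc4⟩ : ∃ c : ℝ, c = 4 * 2 ^ (d + 1) * ((d + 1).factorial : ℝ) * (4 ^ (k + 1) * 2) :=
    ⟨_, rfl⟩
  obtain ⟨d1, hd1, h1⟩ := exists_small 4 (2 * J + 1) (one_pos)
  obtain ⟨d2, hd2, h2⟩ := exists_small (4 * 2 ^ (2 * (d + 1))) (2 * (d + 1)) (one_pos)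
  obtain ⟨d3, hd3, h3⟩ := exists_small (c4 + 1) (d + 1 + (k + 1) + 1) (one_pos)
  obtain ⟨n₀, hn₀⟩ := two_pow_large d k
  refine ⟨min d1 (min d2 d3), lt_min hd1 (lt_min hd2 hd3), ?_⟩
  intro δ hδ hδ0
  have hlarge := (tendsto_rpow_atTop hδ).eventually_ge_atTop (n₀ : ℝ)
  filter_upwards [h1 δ hδ (hδ0.trans (min_le_left _ _)),
    h2 δ hδ (hδ0.trans ((min_le_right _ _).trans (min_le_left _ _))),
    h3 δ hδ (hδ0.trans ((min_le_right _ _).trans (min_le_right _ _))),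
    eventually_ge_atTop (1 : ℝ), hlarge] with T e1 e2 e3 hT1 hTn
  have hT0 : 0 < T := by linarith
  have hH : 1 ≤ T ^ δ := Real.one_le_rpow hT1 hδ.le
  rw [Real.rpow_one] at e1 e2 e3
  refine ⟨hT1, hH, ?_, ?_, ?_, ?_⟩
  · have h4 : 1 ≤ (T ^ δ) ^ (2 * J + 1) := one_le_pow₀ hH
    calc 3 * T ^ δ * (T ^ δ * T ^ δ) ^ J = 3 * (T ^ δ) ^ (2 * J + 1) := by
          rw [← pow_two, ← pow_mul]
          ring
      _ < T := by linarith
  · calc 4 * ((2 * T ^ δ) ^ (d + 1)) ^ 2 = 4 * 2 ^ (2 * (d + 1)) * (T ^ δ) ^ (2 * (d + 1)) := by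
          rw [← pow_mul, mul_pow]
          ring
      _ ≤ T := e2
  · have h4 : 1 ≤ (T ^ δ) ^ (d + 1 + (k + 1) + 1) := one_le_pow₀ hH
    calc 4 * (2 * T ^ δ) ^ (d + 1) * ((d + 1).factorial : ℝ) *
        ((2 * (2 * T ^ δ)) ^ (k + 1) * (2 * T ^ δ))
        = c4 * (T ^ δ) ^ (d + 1 + (k + 1) + 1) := by
          rw [hc4, mul_pow, mul_pow, mul_pow, pow_add, pow_add, pow_add]
          have : (4 : ℝ) ^ (k + 1) = 2 ^ (k + 1) * 2 ^ (k + 1) := by rw [← mul_pow]; norm_num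
          rw [this]
          ring
      _ < T := by linarith
  · intro n hn
    have hn1 : (n₀ : ℝ) ≤ n := hTn.trans hn.le
    have h4 := hn₀ n (by exact_mod_cast hn1)
    refine lt_of_le_of_lt ?_ h4
    have hn0 : (0 : ℝ) ≤ n := by positivity
    apply pow_le_pow_left₀ (by positivity)
    have h5 : T ^ (δ / 2) ≤ √n := by
      have h6 : T ^ (δ / 2) = √(T ^ δ) := by
        rw [Real.sqrt_eq_rpow, ← Real.rpow_mul hT0.le]
        congr 1
        ring
      rw [h6]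
      exact Real.sqrt_le_sqrt hn.le
    have h7 : Real.exp (k * T ^ (δ / 2)) ≤ Real.exp (k * √n) := by
      apply Real.exp_le_exp.mpr
      exact mul_le_mul_of_nonneg_left h5 (by positivity)
    calc 2 * (k + 1) * T ^ δ * Real.exp (k * T ^ (δ / 2)) * n
        = (2 * (k + 1) * n) * (T ^ δ * Real.exp (k * T ^ (δ / 2))) := by ring
      _ ≤ (2 * (k + 1) * n) * (n * Real.exp (k * √n)) := by
          apply mul_le_mul_of_nonneg_left _ (by positivity)
          exact mul_le_mul hn.le h7 (by positivity) hn0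
      _ = _ := by ring

section

variable {K : Type} [Field K] [NumberField K]

/-- the size of a value -/
theorem value_le {f : (𝓞 K)[X]} {B E : ℝ} (hE : 1 ≤ E) {k : ℕ}
    (hk : f.natDegree ≤ k) {t : 𝓞 K} (σ : K →+* ℂ) (hf : ∀ j : ℕ, ‖σ (f.coeff j)‖ ≤ B)
    (ht : ‖σ t‖ ≤ E) : ‖σ (f.eval t : 𝓞 K)‖ ≤ (k + 1) * B * E ^ k := by
  have hB0 : 0 ≤ B := (norm_nonneg _).trans (hf 0)
  rw [← eval_map_sigma, eval_eq_sum_range' (n := k + 1)
    (Nat.lt_succ_of_le (natDegree_map_le.trans hk))]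
  refine (norm_sum_le _ _).trans ?_
  calc ∑ i ∈ Finset.range (k + 1), ‖(f.map (σ.comp (algebraMap (𝓞 K) K))).coeff i * σ t ^ i‖
      ≤ ∑ _i ∈ Finset.range (k + 1), B * E ^ k := by
        apply Finset.sum_le_sum
        intro i hi
        rw [Finset.mem_range] at hi
        rw [norm_mul, norm_pow, coeff_map]
        apply mul_le_mul (hf i) _ (by positivity) hB0
        exact (pow_le_pow_left₀ (norm_nonneg _) ht i).trans (pow_le_pow_right₀ hE (by omega))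
    _ = (k + 1) * B * E ^ k := by
        rw [Finset.sum_const, Finset.card_range, nsmul_eq_mul]
        push_cast
        ring

/-- **Proportional polynomials.** -/
theorem prp (d k : ℕ) : ∃ δ₀ : ℝ, 0 < δ₀ ∧ ∀ δ : ℝ, 0 < δ → δ ≤ δ₀ → ∃ T₀ : ℝ, 1 ≤ T₀ ∧
    ∀ T : ℝ, T₀ ≤ T → ∀ (K : Type) [Field K] [NumberField K], Module.finrank ℚ K ≤ d →
    ∀ (t : 𝓞 K) (f : Fin 3 → (𝓞 K)[X]), FData T (T ^ δ) k t f →
    (∀ σ : K →+* ℂ, ‖σ t‖ ≤ Real.exp (T ^ (δ / 2))) → ∀ n : ℕ, 3 ≤ n →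
    (f 0).eval t ^ n + (f 1).eval t ^ n = (f 2).eval t ^ n → Prp f := by
  obtain ⟨δ₀, hδ₀, hch⟩ := choose d k
  refine ⟨δ₀, hδ₀, ?_⟩
  intro δ hδ hδδ
  obtain ⟨T₀, hT₀⟩ := Filter.eventually_atTop.mp (hch δ hδ hδδ)
  refine ⟨max T₀ 1, le_max_right _ _, ?_⟩
  intro T hTT K _ _ hd t f hD hE n hn heq
  obtain ⟨hT1, hH, g1, g2, g3, g4⟩ := hT₀ T ((le_max_left _ _).trans hTT)
  rcases le_or_gt (n : ℝ) (T ^ δ) with h1 | h1
  · exact small_case hD hH g1 hn h1 heq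
  · have hT0 : 0 < T := by linarith
    have hE1 : 1 ≤ Real.exp (T ^ (δ / 2)) := Real.one_le_exp (by positivity)
    refine large_case hD hH hd g2 g3 hn
      (Y := 2 * (k + 1) * T ^ δ * Real.exp (k * T ^ (δ / 2))) ?_ ?_ (g4 n h1) heq
    · have e1 : (1 : ℝ) ≤ 2 * (k + 1) := by
        have : (0 : ℝ) ≤ k := by positivity
        linarith
      have e2 : (1 : ℝ) ≤ Real.exp (k * T ^ (δ / 2)) := Real.one_le_exp (by positivity)
      exact one_le_mul_of_one_le_of_one_le (one_le_mul_of_one_le_of_one_le e1 hH) e2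
    · intro i σ
      have e1 := value_le hE1 (hD.deg i) σ (fun j => hD.coeff i j σ) (hE σ)
      have e2 : Real.exp (T ^ (δ / 2)) ^ k = Real.exp (k * T ^ (δ / 2)) := by
        rw [← Real.exp_nat_mul]
      rw [e2] at e1
      linarith

/-- a root of `X ^ 2 - X + 1` is a primitive sixth root of unity -/
theorem primitive_six {L : Type*} [Field L] [CharZero L] {a : L} (h : a ^ 2 - a + 1 = 0) :
    IsPrimitiveRoot a 6 := by
  have h3 : a ^ 3 = -1 := by linear_combination (a + 1) * h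
  have h6 : a ^ 6 = 1 := by
    have : a ^ 6 = (a ^ 3) ^ 2 := by ring
    rw [this, h3]
    ring
  have h30 : (3 : L) ≠ 0 := by norm_num
  have h20 : (2 : L) ≠ 0 := by norm_num
  rw [IsPrimitiveRoot.iff_def]
  refine ⟨h6, fun l hl => ?_⟩
  have hr : a ^ (l % 6) = 1 := by
    have h7 : a ^ l = (a ^ 6) ^ (l / 6) * a ^ (l % 6) := by
      rw [← pow_mul, ← pow_add, Nat.div_add_mod]
    rw [h6, one_pow, one_mul] at h7
    rw [← h7]
    exact hl
  have hlt : l % 6 < 6 := Nat.mod_lt _ (by norm_num)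
  obtain ⟨m, hm⟩ : ∃ m, m = l % 6 := ⟨_, rfl⟩
  rw [← hm] at hr hlt
  apply Nat.dvd_of_mod_eq_zero
  rw [← hm]
  interval_cases m
  · rfl
  · exfalso
    rw [pow_one] at hr
    rw [hr] at h
    norm_num at h
  · exfalso
    have h8 : a = 2 := by linear_combination hr - h
    rw [h8] at h
    apply h30
    linear_combination h
  · exfalso
    apply h20
    linear_combination h3 - hr
  · exfalso
    have h8 : a = -1 := by linear_combination a * h3 - hr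
    rw [h8] at h
    apply h30
    linear_combination h
  · exfalso
    have h8 : a ^ 2 = -1 := by linear_combination a ^ 2 * h3 - hr
    have h9 : a = 0 := by linear_combination h8 - h
    rw [h9] at h
    norm_num at h

/-- two roots of unity with sum `1` -/
theorem sum_one {a b : K} (hab : a + b = 1) {m : ℕ} (hm : 0 < m) (ha : a ^ m = 1)
    (hb : b ^ m = 1) : IsPrimitiveRoot a 6 ∧ a * b = 1 := by
  obtain ⟨σ⟩ : Nonempty (K →+* ℂ) := inferInstance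
  have hnorm : ∀ x : K, x ^ m = 1 → ‖σ x‖ = 1 := by
    intro x hx
    have h1 : σ x ^ m = 1 := by rw [← map_pow, hx, map_one]
    exact Complex.norm_eq_one_of_pow_eq_one h1 hm.ne'
  have hinv : ∀ x : K, x ^ m = 1 → σ x * (starRingEnd ℂ) (σ x) = 1 := by
    intro x hx
    rw [Complex.mul_conj, Complex.normSq_eq_norm_sq, hnorm x hx]
    norm_num
  have h1 := hinv a ha
  have h2 := hinv b hb
  have h3 : σ a + σ b = 1 := by rw [← map_add, hab, map_one]
  have h4 : (starRingEnd ℂ) (σ a) + (starRingEnd ℂ) (σ b) = 1 := by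
    rw [← map_add, h3, map_one]
  have h5 : σ a * σ b = 1 := by
    have h6 : σ a * σ b * ((starRingEnd ℂ) (σ a) + (starRingEnd ℂ) (σ b)) = 1 := by
      linear_combination (σ b) * h1 + (σ a) * h2 + h3
    rw [h4, mul_one] at h6
    exact h6
  have h6 : a * b = 1 := by
    apply σ.injective
    rw [map_mul, h5, map_one]
  refine ⟨primitive_six ?_, h6⟩
  have h7 : b = 1 - a := by linear_combination hab
  rw [h7] at h6
  linear_combination -h6

/-- **The conclusion.** -/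
theorem conclusion {T B : ℝ} {k : ℕ} {t : 𝓞 K} {f : Fin 3 → (𝓞 K)[X]} (hD : FData T B k t f)
    (hP : Prp f) {n : ℕ} (heq : (f 0).eval t ^ n + (f 1).eval t ^ n = (f 2).eval t ^ n) :
    ∃ u v : K, (((f 0).eval t : 𝓞 K) : K) = u * ((f 2).eval t : 𝓞 K) ∧
      (((f 1).eval t : 𝓞 K) : K) = v * ((f 2).eval t : 𝓞 K) ∧ (∃ m : ℕ, 0 < m ∧ u ^ m = 1 ∧ v ^ m = 1) ∧
      IsPrimitiveRoot (u ^ n) 6 ∧ v ^ n = (u ^ n) ^ 5 := by
  obtain ⟨G, a, hG⟩ := hP
  have hinj : Function.Injective (algebraMap (𝓞 K) K) := FaithfulSMul.algebraMap_injective (𝓞 K) K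
  have hv : ∀ i, (((f i).eval t : 𝓞 K) : K) = a i * G.eval (t : K) := by
    intro i
    have h1 := congrArg (fun p => p.eval (t : K)) (hG i)
    simp only [eval_mul, eval_C] at h1
    rw [← h1]
    exact (eval_map_apply (f := algebraMap (𝓞 K) K) (p := f i) t).symm
  have h0 : ∀ i, ((f i).coeff 0 : K) = a i * G.coeff 0 := by
    intro i
    have h1 := congrArg (fun p => p.coeff 0) (hG i)
    simp only [coeff_map, coeff_C_mul] at h1
    exact h1
  have ha : ∀ i, a i ≠ 0 := by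
    intro i h
    have h1 := hv i
    rw [h, zero_mul] at h1
    exact hD.val i (RingOfIntegers.coe_eq_zero_iff.mp h1)
  obtain ⟨i0, hi0⟩ := hD.ex
  have hG0 : G.coeff 0 ≠ 0 := by
    intro h
    have h1 := h0 i0
    rw [h, mul_zero] at h1
    exact hi0 (RingOfIntegers.coe_eq_zero_iff.mp h1)
  have hc0 : ∀ i, (f i).coeff 0 ≠ 0 := by
    intro i h
    have h1 := h0 i
    rw [h] at h1
    have h2 : ((0 : 𝓞 K) : K) = 0 := by simp
    rw [h2] at h1
    exact mul_ne_zero (ha i) hG0 h1.symm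
  have hru : ∀ i, ∃ m : ℕ, 0 < m ∧ ((f i).coeff 0 : K) ^ m = 1 := by
    intro i
    obtain ⟨m, hm, h1⟩ := root_of_unity (hD.last i) (hc0 i)
    refine ⟨m, hm, ?_⟩
    have h2 := congrArg (fun x : 𝓞 K => (x : K)) h1
    simpa using h2
  have hratio : ∀ i, ∃ m : ℕ, 0 < m ∧ (a i / a 2) ^ m = 1 := by
    intro i
    obtain ⟨m1, hm1, h1⟩ := hru i
    obtain ⟨m2, hm2, h2⟩ := hru 2
    refine ⟨m1 * m2, Nat.mul_pos hm1 hm2, ?_⟩
    have h3 : a i / a 2 = ((f i).coeff 0 : K) / ((f 2).coeff 0 : K) := by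
      rw [h0, h0, mul_div_mul_right _ _ hG0]
    rw [h3, div_pow, pow_mul, h1, one_pow, mul_comm, pow_mul, h2, one_pow, div_one]
  obtain ⟨m0, hm0, e0⟩ := hratio 0
  obtain ⟨m1, hm1, e1⟩ := hratio 1
  have hz0 : (((f 2).eval t : 𝓞 K) : K) ≠ 0 := RingOfIntegers.coe_ne_zero_iff.mpr (hD.val 2)
  have hu : ∀ i, (((f i).eval t : 𝓞 K) : K) = (a i / a 2) * ((f 2).eval t : 𝓞 K) := by
    intro i
    rw [hv, hv]
    have := ha 2
    field_simp
  obtain ⟨u, hud⟩ : ∃ u, u = a 0 / a 2 := ⟨_, rfl⟩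
  obtain ⟨v, hvd⟩ : ∃ v, v = a 1 / a 2 := ⟨_, rfl⟩
  have hu0 := hu 0
  have hv0 := hu 1
  rw [← hud] at hu0 e0
  rw [← hvd] at hv0 e1
  have hsum : u ^ n + v ^ n = 1 := by
    have h1 := congrArg (fun x : 𝓞 K => (x : K)) heq
    simp only [map_add, map_pow] at h1
    have h2 : (u * ((f 2).eval t : 𝓞 K)) ^ n + (v * ((f 2).eval t : 𝓞 K)) ^ n =
        (((f 2).eval t : 𝓞 K) : K) ^ n := by
      rw [← hu0, ← hv0]
      exact h1
    rw [mul_pow, mul_pow, ← add_mul] at h2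
    exact mul_right_cancel₀ (pow_ne_zero n hz0) (by rw [h2, one_mul])
  have hum : u ^ (m0 * m1) = 1 := by rw [pow_mul, e0, one_pow]
  have hvm : v ^ (m0 * m1) = 1 := by rw [mul_comm, pow_mul, e1, one_pow]
  have hm : 0 < m0 * m1 := Nat.mul_pos hm0 hm1
  obtain ⟨g1, g2⟩ := sum_one hsum hm (by rw [← pow_mul, mul_comm n, pow_mul, hum, one_pow])
    (by rw [← pow_mul, mul_comm n, pow_mul, hvm, one_pow])
  refine ⟨u, v, hu0, hv0, ⟨m0 * m1, hm, hum, hvm⟩, g1, ?_⟩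
  have h6 : (u ^ n) ^ 6 = 1 := g1.pow_eq_one
  have hune : u ^ n ≠ 0 := left_ne_zero_of_mul_eq_one g2
  apply mul_left_cancel₀ hune
  rw [g2, ← h6]
  ring

end

end Pool.Agent.Q103.FER
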